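import Mathlib
import Pool.Agent.Q64.L.InstC
import Pool.Agent.Q70.MM.Times
import Pool.Agent.Q306.TP.AngleMain
import Pool.Agent.Q306.FG.Thms

/-!
# Étale motivic cohomology in the weight of the dimension and in a range of degrees, for the
products of varieties over finite fields with abelian varieties: prime dimensions and generic
fields

Let `q = p ^ a`, let `F i` (`i` in a finite set) be CM fields and `π i` a Weil number for `q` in
`F i`, and let `f i` be monic polynomials whose complex roots are conjugates of `π i`
(`IsPolyOf`), for instance the characteristic polynomials of Frobenius of the abelian varieties in
the isogeny class of `π i` over the field with `q` elements. We suppose that each `π i` is simple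
(`IsSimpleWeil`): it is not supersingular, and

* the functions `n` on the complex embeddings of `F i` with `n (conj φ) = - n φ` are an
  irreducible representation of the automorphisms of `ℂ` (`OddIrreducible`), **or**
* `F i` has the degree `2 g` for an odd prime number `g`, all powers of `π i` generate `F i`, and
  either no power of the norm of `π i` to an imaginary quadratic subfield is a power of `q`
  (`NoWeil`; there is no condition if there is no such subfield) or the slopes of `π i` are only
  `0`, `1 / 2`, `1`, with an odd number of slopes `0` (`HasOddRank`). For example, by the second
  part of the theorem, `π i` may be any ordinary Weil number in a CM field of degree `2 g`, `g ≠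
  2` prime, all of whose powers generate the field: this is the case of the ordinary,
  geometrically simple abelian varieties of odd prime dimension;

and that for `i ≠ k` the fields `F i`, `F k` are different (`IsDifferent`): they have different
degrees or different normal closures, and they do not contain the same imaginary quadratic field.
Nothing else is assumed about the Galois groups of the fields.

Let `A` be an abelian variety over the field with `Q = q ^ s` elements which is isogenous to a
product of powers of abelian varieties coming from the field with `q` elements, with
characteristic polynomials `f i`, and let `Z` be **any** smooth projective variety over the field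
with `Q` elements such that

* the eigenvalues `ρ` of Frobenius on the cohomology of `Z` and their conjugates are unrelated to
  the fields `F i` (`UnrelatedTo`): a function `n` on the complex embeddings of `F i` with `n
  (conj φ) = - n φ` which is invariant under all automorphisms of `ℂ` that fix a power of `ρ` is
  zero. By the third part of the theorem all elements of a number field `E` have this property
  (for one field `F` with a simple Weil number) if the normal closure of `F` is not contained in
  that of `E`, and `F` and `E` do not contain the same imaginary quadratic field;
* the motive of `Z` is finite-dimensional in the sense of Kimura and O'Sullivan. This is known for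
  all varieties dominated by products of curves. It implies that the Frobenius endomorphism of `Z`
  satisfies, as a correspondence modulo rational equivalence, a polynomial equation with the same
  roots as on the cohomology; only this is used.

**For every integer `a` the groups `H^i((A × Z)_et, ℤ(dim A + d))`, `a ≤ i ≤ 2 (dim A + d)`, are
finitely generated if and only if for all `k` with `0 ≤ k ≤ dim A` the groups `H^i(Z_et, ℤ(d +
k))`, `a - 2 (dim A - k) ≤ i ≤ 2 (d + k)`, are finitely generated**, where `d = dim Z`
(`TopFromReduces`). For `a = 0` the first statement is question Q1 for `A × Z`. The second one is
then also about negative degrees: for `k = 0` it is question Q1 for `Z` together with the finite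
generation, hence vanishing, of the groups `H^i(Z, ℚ(d))` with `- 2 dim A ≤ i < 0`. So the
restriction to the degrees `i ≥ 0` in question Q1 is not stable under products with the abelian
varieties `A`: question Q1 for the varieties `A × Z` contains more and more of the conjecture of
Beilinson and Soulé for `Z` if `dim A` grows. No case of the conjectures of Tate, Beilinson, Soulé
and Parshin is assumed.

What is used of `A` are known theorems (`IsAbelian`): `H(A)` is generated by `H^1`, Frobenius is
diagonalizable on `H^1` (Weil), the theorem of Tate on divisors, and the nilpotence of
homologically trivial correspondences (Kimura). The motivic cohomology groups `H^i(X, ℚ(m))`, for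
`X = Z` and `X = A × Z`, are the groups of bidegree `(i, m)` of a theory which is modelled by
`RelData`, with the formal properties in `IsTheory`: degrees, products with classes on `A`,
push-forward to `Z`, the projection formula, the operation of the correspondences of `A` and of
the Frobenius endomorphism of `Z`. The Frobenius endomorphism of `X` is the multiplication by `Q ^
m` on `H^i(X, ℚ(m))` (`IsPure`). The groups `H^i(X_et, ℤ(m))` and `H^i(X_et, ℚ/ℤ(m))` belong to
the long exact sequences of `0 → ℤ(m) → ℚ(m) → ℚ/ℤ(m) → 0` (`EtaleData`, `IsEtale`). It is known
for smooth projective `X` (`IsSmoothProjective`) that `H^i(X_et, ℚ/ℤ(m))` is finite for `m > dim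
X`, and for `m = dim X`, `i < 2 m` (Deligne, Gabber, Gros and Suwa), and that `H^(2 m)(X_et,
ℤ(m))` is finitely generated for `m ≥ dim X`.

Relation to other results. The theorem on the angle rank which is used (`angle_family'`) and its
application to the Tate conjecture are in `PrimeReduction`, `PrimeDimensions` (MP_7b53ad_ag,
MP_ee618e_ag, helper306). Helper64 has the reduction of `A × Z` to `Z` for the rational groups and
other classes of abelian varieties `A` (the conjecture of Parshin, MP_27fd67_ag). New here are the
class of the abelian varieties, the groups with integral coefficients, and the range of weights
and degrees of the question.

The proof. The differences of the exponents of complex conjugate embeddings in the multiplicative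
relations between `q` and the conjugates of one `π i` form a stable space of odd functions. If the
degree of `F i` is twice an odd prime number `g`, then the Galois group permutes the `g` pairs of
embeddings transitively, and the rational permutation representation is the sum of the trivial and
an irreducible one; so there are at most two proper nonzero stable spaces of odd functions, and
only if `F i` contains an imaginary quadratic field. One of them would make a power of `π i` an
element of this field, and the other one is excluded by `NoWeil` or by the number of slopes. The
odd functions for different fields have no common constituents, apart from those given by common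
imaginary quadratic subfields. So the `π i` have maximal angle rank (`angle_family'`). Hence a
multiplicative relation between `ρ`, a power of `q` and roots of the `f i`, other than those which
follow from `α (q / α) = q`, gives a nonzero odd function which is invariant under the
automorphisms fixing a power of `ρ`; there is none, as `ρ` is unrelated to the fields. It follows
that the correspondence on `A` given by the sum of the products of dual classes of divisor
products acts as the identity on the motivic cohomology of `A × Z`: the Frobenius endomorphism of
`A × Z` is the multiplication by `Q ^ j`, so that the Frobenius endomorphism of `A` satisfies a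
power of the polynomial reciprocal to that of the Frobenius endomorphism of `Z`; this polynomial
is prime to the one whose value on `H(A)` lies in the part generated by divisors, and the
difference of the two correspondences is nilpotent (helper64). So the rational motivic cohomology
of `A × Z` is the direct sum of the products of finitely many products of divisors on `A` with
that of `Z`. In the weights `m ≥ dim X` and the degrees in question a group with integral
coefficients is finitely generated if and only if the rational group is zero: if it is finitely
generated, then the rational group modulo its image is a divisible subgroup of a finite group,
hence zero, so that the rational group is finitely generated. (The idea to play the eigenvalues of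
Frobenius off against nilpotence is due to Soulé, Geisser and Kahn.)
-/

set_option autoImplicit false

namespace Pool.Agent.Results.MP_c71c7a_nt.PrimeDimensions

open NumberField Module IntermediateField Polynomial Pool.Agent.Y1.CT Pool.Agent.Q64.L
  Pool.Agent.Q306.TP Pool.Agent.Q306.FG

/-- **Question Q1 for `A × Z` is question Q1 for `Z`, together with finite generation in the
weights up to `dim Z + dim A` and in negative degrees**, for the abelian varieties `A` over
finite fields with simple Weil numbers in different fields, for instance ordinary and of odd
prime dimensions, and all unrelated `Z`. -/
theorem result :
    (∀ (p : ℕ) [Fact p.Prime] (a : ℕ) (I : Type) [Fintype I] (F : I → Type)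
      [∀ i, Field (F i)] [∀ i, NumberField (F i)] [∀ i, IsCMField (F i)] (π : ∀ i, F i)
      (f : I → ℤ[X]), 0 < a →
      (∀ i, π i * IsCMField.complexConj (F i) (π i) = (p : F i) ^ a) →
      (∀ i, IsSimpleWeil p a (π i)) → (∀ i k, i ≠ k → IsDifferent (F i) (F k)) →
      (∀ i, IsPolyOf (π i) (f i)) → TopFromReduces (UnrelatedRoots F) (p ^ a) f) ∧
    (∀ (p : ℕ) [Fact p.Prime] (a : ℕ) (F : Type) [Field F] [NumberField F] [IsCMField F] (π : F),
      0 < a → π * IsCMField.complexConj F π = (p : F) ^ a →
      (∃ g : ℕ, g.Prime ∧ g ≠ 2 ∧ finrank ℚ F = 2 * g) → (∀ s : ℕ, 0 < s → ℚ⟮π ^ s⟯ = ⊤) →
      (∀ τ : F →+* PadicAlgCl p, ‖τ π‖ = 1 ∨ ‖τ π‖ = ‖(p : PadicAlgCl p) ^ a‖) →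
      IsSimpleWeil p a π) ∧
    (∀ (p : ℕ) [Fact p.Prime] (a : ℕ) (F : Type) [Field F] [NumberField F] [IsCMField F] (π : F),
      IsSimpleWeil p a π → ∀ (E : Type) [Field E] [NumberField E],
      ¬ normalClosure ℚ F ℂ ≤ normalClosure ℚ E ℂ → ¬ CommonImaginary F E →
      ∀ (φ : E →+* ℂ) (x : E), UnrelatedTo F (φ x)) := by
  refine ⟨?_, ?_, ?_⟩
  · intro p _ a I _ F _ _ _ π f ha hw hs hd hf
    exact topFromReduces (Nat.one_lt_pow ha.ne' (Fact.out : p.Prime).one_lt)
      (good_unrelated (Pool.Agent.Q70.MM.noRel_of_angle (angle_family' ha hw hs hd) hw f hf))
  · intro p _ a F _ _ _ π ha hw hK hgen hord
    exact simpleWeil_of_ordinary ha hw hK hgen hord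
  · intro p _ a F _ _ _ π hs E _ _ hle hcom φ x
    exact unrelated_of_simple hs hle hcom φ x

end Pool.Agent.Results.MP_c71c7a_nt.PrimeDimensions
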