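import Mathlib
import Pool.Agent.Q64.P.Good
import Pool.Agent.Q306.FG.Thms

/-!
# Étale motivic cohomology in the weight of the dimension and in a range of degrees, for the
products of varieties over finite fields with abelian varieties: small slope deviations

Let `q = p ^ a`, let `F i` (`i` in a finite set) be CM fields and `π i` a Weil number for `q` in
`F i`, and let `f i` be monic polynomials whose complex roots are conjugates of `π i`
(`IsPolyOf`), for instance the characteristic polynomials of Frobenius of the abelian varieties in
the isogeny class of `π i` over the field with `q` elements. We suppose that

* the functions `n` on the complex embeddings of `F i` with `n (conj φ) = - n φ` are an absolutely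
  irreducible representation of the automorphisms of `ℂ` (`OddAbsolutelyIrreducible`), and there
  are no equivariant maps between those of `F i` and `F i'` for `i ≠ i'` (`Unrelated`). This is
  the generic case;
* no `π i` is supersingular (`HasOtherSlope`).

Let `A` be an abelian variety over the field with `Q = q ^ s` elements which is isogenous to a
product of powers of abelian varieties coming from the field with `q` elements, with
characteristic polynomials `f i`, and let `Z` be **any** smooth projective variety over the field
with `Q` elements such that

* the eigenvalues `ρ` of Frobenius on the cohomology of `Z` and their conjugates are good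
  (`GoodRoots`): for each `i`, `ρ` is unrelated to `F i` (`UnrelatedTo`: a function `n` on the
  embeddings of `F i` with `n (conj φ) = - n φ` which is invariant under all automorphisms of `ℂ`
  that fix a power of `ρ` is zero), **or** `d (ρ) < d (π i)`, **or** the weight of `ρ` is even and
  `d (ρ) < d (π i) + d (π i')` for all `i'` (`SmallDeviation`). Here `d (ρ)` is the mean of `(log
  |x| + log |ρ|) ^ 2` over all `p`-adic conjugates `x` of `ρ` (`deviation`), that is `(log q) ^ 2`
  times the mean square deviation of the slopes of `ρ` from half of its weight, and `d (π i) =
  (log q) ^ 2 / 4` if `π i` is ordinary (second part of the theorem);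
* the motive of `Z` is finite-dimensional in the sense of Kimura and O'Sullivan. This is known for
  all varieties dominated by products of curves. It implies that the Frobenius endomorphism of `Z`
  satisfies, as a correspondence modulo rational equivalence, a polynomial equation with the same
  roots as on the cohomology; only this is used.

**For every integer `a` the groups `H^i((A × Z)_et, ℤ(dim A + d))`, `a ≤ i ≤ 2 (dim A + d)`, are
finitely generated if and only if for all `k` with `0 ≤ k ≤ dim A` the groups `H^i(Z_et, ℤ(d +
k))`, `a - 2 (dim A - k) ≤ i ≤ 2 (d + k)`, are finitely generated**, where `d = dim Z`
(`TopFromReduces`). For `a = 0` the first statement is question Q1 for `A × Z`. The second one is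
then also about negative degrees: for `k = 0` it is question Q1 for `Z` together with the finite
generation, hence vanishing, of the groups `H^i(Z, ℚ(d))` with `- 2 dim A ≤ i < 0`. So the
restriction to the degrees `i ≥ 0` in question Q1 is not stable under products with the abelian
varieties `A`: question Q1 for the varieties `A × Z` contains more and more of the conjecture of
Beilinson and Soulé for `Z` if `dim A` grows. No case of the conjectures of Tate, Beilinson, Soulé
and Parshin is assumed.

What is used of `A` are known theorems (`IsAbelian`): `H(A)` is generated by `H^1`, Frobenius is
diagonalizable on `H^1` (Weil), the theorem of Tate on divisors, and the nilpotence of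
homologically trivial correspondences (Kimura). The motivic cohomology groups `H^i(X, ℚ(m))`, for
`X = Z` and `X = A × Z`, are the groups of bidegree `(i, m)` of a theory which is modelled by
`RelData`, with the formal properties in `IsTheory`: degrees, products with classes on `A`,
push-forward to `Z`, the projection formula, the operation of the correspondences of `A` and of
the Frobenius endomorphism of `Z`. The Frobenius endomorphism of `X` is the multiplication by `Q ^
m` on `H^i(X, ℚ(m))` (`IsPure`). The groups `H^i(X_et, ℤ(m))` and `H^i(X_et, ℚ/ℤ(m))` belong to
the long exact sequences of `0 → ℤ(m) → ℚ(m) → ℚ/ℤ(m) → 0` (`EtaleData`, `IsEtale`). It is known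
for smooth projective `X` (`IsSmoothProjective`) that `H^i(X_et, ℚ/ℤ(m))` is finite for `m > dim
X`, and for `m = dim X`, `i < 2 m` (Deligne, Gabber, Gros and Suwa), and that `H^(2 m)(X_et,
ℤ(m))` is finitely generated for `m ≥ dim X`.

Examples, for `s = 1` and ordinary `π i`. All `ρ` of even weight `2 v` with slopes between `v - 1
/ √2` and `v + 1 / √2` are good, and all `ρ` of any weight `w` with slopes between `(w - 1) / 2`
and `(w + 1) / 2`. In general all `ρ` of weight `2 v` are good whose degree over `ℚ` is more than
`2 ∑ (s - v) ^ 2`, the sum over the slopes `s` of all conjugates. The conditions of this kind do
not exclude any relation between `A` and the other factor: `ℚ(ρ)` may be contained in a field `F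
i`, or in its Galois closure.

Relation to other results. The criterion for slopes is the one of `SmallSlopeDeviation`
(MP_0f183b_ag, helper70), where it is applied to the Tate conjecture; helper64 has the theorem for
the rational groups (MP_27fd67_ag). New here are the groups with integral coefficients and the
range of weights and degrees of the question.

The proof. A multiplicative relation between `ρ`, a power of `q` and a product of conjugates of
the `π i` gives, for each automorphism `σ` of a Galois closure, the linear relation `s (σ ρ) - w /
2 = ∑ x, n x (s (σ x) - 1 / 2)` between slopes, up to signs, where the sum is over one embedding
`x` of each conjugate pair and `n x` is the difference of the multiplicities of `x` and of its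
conjugate. The second moments of the slopes are an invariant form on the odd functions; all its
compositions with rational functionals are rational invariant forms, and so the slopes at
different pairs are uncorrelated, by Schur's lemma. Hence `d (ρ) = ∑ x, (n x) ^ 2 d (π x)`. If the
weight of `ρ` is even, so is the sum of all multiplicities, and a single `n x = ± 1` is
impossible. So all `n x` are zero (`noRel_good`, by helper70). It follows that the correspondence
on `A` given by the sum of the products of dual classes of divisor products acts as the identity
on the motivic cohomology of `A × Z`: the Frobenius endomorphism of `A × Z` is the multiplication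
by `Q ^ j`, so that the Frobenius endomorphism of `A` satisfies a power of the polynomial
reciprocal to that of the Frobenius endomorphism of `Z`; this polynomial is prime to the one whose
value on `H(A)` lies in the part generated by divisors, and the difference of the two
correspondences is nilpotent (helper64). So the rational motivic cohomology of `A × Z` is the
direct sum of the products of finitely many products of divisors on `A` with that of `Z`. In the
weights `m ≥ dim X` and the degrees in question a group with integral coefficients is finitely
generated if and only if the rational group is zero: if it is finitely generated, then the
rational group modulo its image is a divisible subgroup of a finite group, hence zero, so that the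
rational group is finitely generated. (The idea to play the eigenvalues of Frobenius off against
nilpotence is due to Soulé, Geisser and Kahn.)
-/

set_option autoImplicit false

namespace Pool.Agent.Results.MP_c71c7a_nt.SmallSlopeDeviation

open NumberField Module Polynomial Pool.Agent.Y137.MV Pool.Agent.Y137.SL Pool.Agent.Y1.CT
  Pool.Agent.Q70.SQ Pool.Agent.Q64.P Pool.Agent.Q306.FG

/-- **Question Q1 for `A × Z` is question Q1 for `Z`, together with finite generation in the
weights up to `dim Z + dim A` and in negative degrees**, for the abelian varieties `A` over
finite fields with absolutely irreducible, unrelated CM fields and no supersingular part, and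
all `Z` each of whose Frobenius eigenvalues is unrelated to these fields or has small mean
square slope deviation. -/
theorem result :
    (∀ (p : ℕ) [Fact p.Prime] (a : ℕ) (I : Type) [Fintype I] (F : I → Type)
      [∀ i, Field (F i)] [∀ i, NumberField (F i)] [∀ i, IsCMField (F i)] (π : ∀ i, F i)
      (f : I → ℤ[X]), 0 < a →
      (∀ i, π i * IsCMField.complexConj (F i) (π i) = (p : F i) ^ a) →
      (∀ i, OddAbsolutelyIrreducible (F i)) →
      (∀ i i', i ≠ i' → Pool.Agent.Y137.MV.Unrelated (F i) (F i')) →
      (∀ i, HasOtherSlope p a (π i)) → (∀ i, IsPolyOf (π i) (f i)) →
      TopFromReduces (GoodRoots p a π) (p ^ a) f) ∧
    (∀ (p : ℕ) [Fact p.Prime] (a : ℕ) (F : Type) [Field F] [NumberField F] (π : F),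
      IsOrdinary p a π → weilDeviation p a π = (a * Real.log p) ^ 2 / 4) := by
  refine ⟨?_, ?_⟩
  · intro p _ a I _ F _ _ _ π f ha hw habs hun hns hf
    exact topFromReduces (Nat.one_lt_pow ha.ne' (Fact.out : p.Prime).one_lt)
      (good_small ha hw habs hun hns f hf)
  · intro p _ a F _ _ π h
    exact weilDeviation_ordinary h

end Pool.Agent.Results.MP_c71c7a_nt.SmallSlopeDeviation
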